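import Pool.Agent.W4.CF.Deg3All

/-!
The truncated counting function of an arbitrary reduced divisor `D = {F = 0}` of degree three on the
projective line over `ℚ` (`F` a binary cubic form with integral coefficients, irreducible or not,
and nonzero discriminant). A point `P = (x : y)` of `P¹(ℚ)` is given by coprime integers `x, y`;
`h(P) = log max(|x|, |y|)` is a height for `K_X + D`, which has degree one.
-/

set_option autoImplicit false

namespace Pool.Agent.Results.MP_9ec3f0_nt.DegreeThreeDivisors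

/-- the binary cubic form `F` with coefficients `a, b, c, d` at `(x, y)` -/
def form (a b c d x y : ℤ) : ℤ := a * x ^ 3 + b * x ^ 2 * y + c * x * y ^ 2 + d * y ^ 3

/-- the discriminant of the binary cubic form with coefficients `a, b, c, d` -/
def disc (a b c d : ℤ) : ℤ :=
  b ^ 2 * c ^ 2 - 4 * a * c ^ 3 - 4 * b ^ 3 * d + 18 * a * b * c * d - 27 * a ^ 2 * d ^ 2

/-- the height of the point `(x : y)`, for coprime `x` and `y` -/
noncomputable def height (x y : ℤ) : ℝ := Real.log (max |(x : ℝ)| |(y : ℝ)|)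

/-- `N_S^(1)(D, P)` for `D = {F = 0}` and `P = (x : y)`, for coprime `x` and `y`: the sum of `log p`
over the primes `p` outside `S` that divide `F(x, y)` -/
noncomputable def counting (a b c d : ℤ) (S : Finset ℕ) (x y : ℤ) : ℝ :=
  ∑ p ∈ (form a b c d x y).natAbs.primeFactors.filter (fun p => p ∉ S), Real.log p

/-- the points `(x : y)` off `D` with `H(P) ≤ B` and `N_S^(1)(D, P) ≤ λ h(P) + c₀`,
each given by two pairs of coprime integers -/
def exceptional (a b c d : ℤ) (S : Finset ℕ) (lam c₀ B : ℝ) : Set (ℤ × ℤ) :=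
  {P | IsCoprime P.1 P.2 ∧ form a b c d P.1 P.2 ≠ 0 ∧ max |(P.1 : ℝ)| |(P.2 : ℝ)| ≤ B ∧
    counting a b c d S P.1 P.2 ≤ lam * height P.1 P.2 + c₀}

/-- Let `D` be any reduced divisor of degree three on the projective line over `ℚ`, `S` a finite
set of primes, `0 ≤ λ ≤ 1`, `c₀` real and `δ > 0`. Then at most
`C B ^ (min (11 λ / 12) ((6 λ + 1) / 8) + δ)` points `P` of height `H(P) ≤ B` off `D` satisfy
`N_S^(1)(D, P) ≤ λ h(P) + c₀`. -/
theorem result (a b c d : ℤ) (hdisc : disc a b c d ≠ 0) (S : Finset ℕ) (lam c₀ δ : ℝ)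
    (hlam0 : 0 ≤ lam) (hlam1 : lam ≤ 1) (hδ : 0 < δ) :
    ∃ C : ℝ, 0 < C ∧ ∀ B : ℝ, 1 ≤ B →
      (exceptional a b c d S lam c₀ B).Finite ∧
      ((exceptional a b c d S lam c₀ B).ncard : ℝ) ≤
        C * B ^ (min (11 * lam / 12) ((6 * lam + 1) / 8) + δ) :=
  Pool.Agent.W4.CF.deg3_main a b c d hdisc S lam c₀ δ hlam0 hlam1 hδ

end Pool.Agent.Results.MP_9ec3f0_nt.DegreeThreeDivisors
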