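import Mathlib
import Pool.Agent.W231.H.Main
import Pool.Agent.W231.G.Fin

set_option autoImplicit false

/-!
# Vojta's conjecture with truncated counting function: the degree of the exceptional set

`X = ℙ^n`, `n ≥ 2`, over any number field `K`, `D` any divisor which contains `n + 2` hyperplanes in
general position.
-/

namespace Pool.Agent.Results.MP_9ec3f0_nt.ExceptionalDegreeAnyDivisor

open NumberField IsDedekindDomain

variable {K : Type} [Field K] [NumberField K] {n : ℕ}

/-- The linear form with coefficients `l`. -/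
noncomputable def linearForm {K : Type} [Field K] {n : ℕ} (l : Fin (n + 1) → K) :
    MvPolynomial (Fin (n + 1)) K :=
  ∑ j, MvPolynomial.C (l j) * MvPolynomial.X j

/-- The local height at the prime `v` of the point with homogeneous coordinates `x`, relative to
the divisor `F = 0`, where `F` is a form of degree `d` (with respect to the closure of this divisor
in the projective space over the local ring of `v`). -/
noncomputable def weil (v : HeightOneSpectrum (𝓞 K)) (F : MvPolynomial (Fin (n + 1)) K) (d : ℕ)
    (x : Fin (n + 1) → K) : ℝ :=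
  Real.log ((⨆ m, FinitePlace.mk v (F.coeff m)) * (⨆ j, FinitePlace.mk v (x j)) ^ d /
    FinitePlace.mk v (MvPolynomial.eval x F))

/-- The truncated counting function `N_S^{(1)}(D, P)` of the divisor `D = {F = 0}` at the point
with homogeneous coordinates `x`: the sum of `log N(v)` over the primes `v` outside `S` at which the
local height is positive. -/
noncomputable def truncated (S : Set (HeightOneSpectrum (𝓞 K)))
    (F : MvPolynomial (Fin (n + 1)) K) (d : ℕ) (x : Fin (n + 1) → K) : ℝ :=
  ∑ᶠ v ∈ {v : HeightOneSpectrum (𝓞 K) | v ∉ S ∧ 0 < weil v F d x},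
    Real.log (Ideal.absNorm v.asIdeal : ℝ)

/-- Let `n ≥ 2` and let `D = {F = 0}` be any divisor of degree `d` of `ℙ^n` over a number field `K`
which contains `n + 2` hyperplanes in general position, so that `h_{K_X + D} = (d - n - 1) h`. If the
truncated Vojta inequality `(d - n - 1) h(P) ≤ N_S^{(1)}(D, P) + ε h(P) + C` holds for all
`P ∈ ℙ^n(K)` off `D` and off the zero set of a nonzero form `G` of degree `δ` (with coefficients in
some extension of `K`), then `2 ^ τ(k) ≤ 2 (δ + d)` for every odd `k` with `ε k < 1`, where `τ(k)` is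
the number of divisors of `k`; more precisely `X ^ k - 1` has at most `2 (δ + d)` monic divisors over
`K`. -/
theorem result (K : Type) [Field K] [NumberField K] (S : Set (HeightOneSpectrum (𝓞 K))) (n : ℕ)
    (hn : 2 ≤ n) (L : Fin (n + 2) → Fin (n + 1) → K)
    (hL : ∀ I : Finset (Fin (n + 2)), I.card = n + 1 → LinearIndependent K (fun i : I => L i))
    (F : MvPolynomial (Fin (n + 1)) K) (d : ℕ) (hF : F ≠ 0) (hFd : F.IsHomogeneous d)
    (hLF : (∏ i, linearForm (L i)) ∣ F)
    (Ω : Type) [Field Ω] [Algebra K Ω] (G : MvPolynomial (Fin (n + 1)) Ω) (δ : ℕ) (hG : G ≠ 0)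
    (hGδ : G.IsHomogeneous δ) (ε C : ℝ)
    (hV : ∀ x : Fin (n + 1) → K, MvPolynomial.eval x F ≠ 0 →
      MvPolynomial.eval (fun j => algebraMap K Ω (x j)) G ≠ 0 →
      ((d : ℝ) - n - 1) * Height.logHeight x ≤
        truncated S F d x + ε * Height.logHeight x + C)
    (k : ℕ) (hk : Odd k) (hεk : ε * k < 1) :
    2 ^ k.divisors.card ≤ 2 * (δ + d) ∧
      ∀ Ps : Finset (Polynomial K), (∀ P ∈ Ps, P.Monic ∧ P ∣ Polynomial.X ^ k - 1) →
        Ps.card ≤ 2 * (δ + d) := by
  classical
  have key : ∀ Ps : Finset (Polynomial K), (∀ P ∈ Ps, P.eval 0 = 1 ∧ P ∣ 1 - Polynomial.X ^ k) →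
      Ps.card ≤ 2 * (δ + d) := by
    intro Ps hPs
    by_contra hlt
    push Not at hlt
    obtain ⟨x, hFx, hGx, hfin, hsum⟩ := Pool.Agent.W231.H.main6 hn L hL F hF hFd hLF G hG hGδ C hk
      hεk Ps hPs hlt
    have h1 := hV x hFx hGx
    have hsub : ∀ v : HeightOneSpectrum (𝓞 K), 0 < weil v F d x →
        Pool.Agent.W231.H.Bad v F d x := by
      intro v hv
      by_contra hcon
      unfold Pool.Agent.W231.H.Bad at hcon
      push Not at hcon
      refine absurd hv (not_lt.2 ?_)
      have h0 : 0 < FinitePlace.mk v (MvPolynomial.eval x F) := FinitePlace.pos_iff.2 hFx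
      refine Real.log_nonpos ?_ ?_
      · refine div_nonneg (mul_nonneg ?_ (pow_nonneg ?_ _)) h0.le
        · exact Real.iSup_nonneg fun j => apply_nonneg _ _
        · exact Real.iSup_nonneg fun j => apply_nonneg _ _
      · rw [div_le_one h0]
        exact hcon
    have hfin' : {v : HeightOneSpectrum (𝓞 K) | v ∉ S ∧ 0 < weil v F d x}.Finite :=
      hfin.subset fun v hv => hsub v hv.2
    have htr : truncated S F d x = ∑ v ∈ hfin'.toFinset, Pool.Agent.W231.V.ell v := by
      unfold truncated
      rw [finsum_mem_eq_finite_toFinset_sum _ hfin']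
      rfl
    have h2 := hsum hfin'.toFinset fun v hv => hsub v (hfin'.mem_toFinset.1 hv).2
    rw [← htr] at h2
    linarith
  refine ⟨?_, fun Ps hPs => ?_⟩
  · obtain ⟨Ps, hcard, hPs⟩ := Pool.Agent.W231.G.family_int K hk.pos le_rfl
    rw [← hcard]
    exact key Ps fun P hP => ⟨(hPs P hP).1, (hPs P hP).2.1⟩
  · obtain ⟨Ps', hcard, hPs'⟩ := Pool.Agent.W231.G.family_monic (m := k) hk.pos Ps (by
      intro P hP
      refine ⟨(hPs P hP).1, (hPs P hP).2, ?_⟩
      have h1 : (Polynomial.X ^ k - 1 : Polynomial K).natDegree = k :=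
        Polynomial.natDegree_X_pow_sub_C (n := k) (r := (1 : K))
      have h2 : (Polynomial.X ^ k - 1 : Polynomial K) ≠ 0 := by
        intro h
        rw [h, Polynomial.natDegree_zero] at h1
        have := hk.pos
        omega
      have h3 := Polynomial.natDegree_le_of_dvd (hPs P hP).2 h2
      rwa [h1] at h3)
    rw [← hcard]
    exact key Ps' fun P hP => ⟨(hPs' P hP).1, (hPs' P hP).2.1⟩

end Pool.Agent.Results.MP_9ec3f0_nt.ExceptionalDegreeAnyDivisor
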