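import Mathlib
import Pool.Agent.W232.VA.LB

/-!
Arbitrary hyperplane arrangements in projective space over a number field (no general position, no bound
on the number of hyperplanes). Let `X` be the log resolution of the arrangement obtained by blowing up all
its flats (for the braid arrangement this is the moduli space of stable pointed rational curves), `D` the
reduced preimage of the arrangement (a normal crossings divisor). The local height of
`K_X + D + (n + 1) H` at a place `v` is, up to a bounded function which is zero for almost all `v`, the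
largest sum of the local heights of the hyperplanes of a linearly independent subfamily.

The theorem: for `0 ≤ κ ≤ 1 / 2` the number of rational points of height at most `B` off the arrangement
at which `N¹_S(D, P) ≤ h_{K_X + D}(P) + (n + 1 - κ) h(P) + c` is at most `M B ^ (n + 1 - κ + δ)` for every
`c` and `δ > 0`, and at least `m B ^ (n + 1 - κ)` for all large `c`.
-/

set_option autoImplicit false

open NumberField Height Finset IsDedekindDomain LinearAlgebra.Projectivization

namespace Pool.Agent.Results.MP_9ec3f0_nt.HyperplaneArrangements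

variable {K : Type*} [Field K] {n r : ℕ}

/-- the value at `x` of the linear form with coefficients `a` -/
def lin (a x : Fin (n + 1) → K) : K := ∑ j, a j * x j

/-- the local height of the hyperplane `a = 0` at `x` for the absolute value `f` -/
noncomputable def lam (f : AbsoluteValue K ℝ) (a x : Fin (n + 1) → K) : ℝ :=
  Real.log ((⨆ j, f (a j)) * (⨆ j, f (x j)) / f (lin a x))

/-- the largest sum of local heights over a linearly independent subfamily of the arrangement -/
noncomputable def wt (f : AbsoluteValue K ℝ) (a : Fin r → Fin (n + 1) → K) (x : Fin (n + 1) → K) : ℝ :=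
  ⨆ I : {I : Finset (Fin r) // LinearIndependent K (fun i : I => a i)}, ∑ i ∈ I.1, lam f (a i) x

variable [NumberField K]

/-- the `v`-adic absolute value -/
noncomputable def fv (v : HeightOneSpectrum (𝓞 K)) : AbsoluteValue K ℝ := (FinitePlace.mk v).1

/-- the norm of a prime -/
noncomputable def Nv (v : HeightOneSpectrum (𝓞 K)) : ℝ := (Ideal.absNorm v.asIdeal : ℝ)

/-- the sum of the local heights `wt` over all places -/
noncomputable def hW (a : Fin r → Fin (n + 1) → K) (x : Fin (n + 1) → K) : ℝ :=
  ∑ w : InfinitePlace K, (w.mult : ℝ) * wt w.1 a x + ∑ᶠ v : HeightOneSpectrum (𝓞 K), wt (fv v) a x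

open Classical in
/-- the truncated counting function of the arrangement: the sum of `log N(v)` over the primes outside
`S` at which the point reduces into one of the hyperplanes -/
noncomputable def N1 (S : Finset (HeightOneSpectrum (𝓞 K))) (a : Fin r → Fin (n + 1) → K)
    (x : Fin (n + 1) → K) : ℝ :=
  ∑ᶠ v : HeightOneSpectrum (𝓞 K), if v ∉ S ∧ ∃ i, 0 < lam (fv v) (a i) x then Real.log (Nv v) else 0

/-- the points of height at most `B` off the arrangement at which the truncated counting function is at
most `hW - κ h + c` -/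
def Exc (S : Finset (HeightOneSpectrum (𝓞 K))) (a : Fin r → Fin (n + 1) → K) (κ c B : ℝ) :
    Set (ℙ K (Fin (n + 1) → K)) :=
  {P | (∀ i, lin (a i) P.rep ≠ 0) ∧ P.mulHeight ≤ B ∧
    N1 S a P.rep ≤ hW a P.rep - κ * Real.log P.mulHeight + c}

theorem result (K : Type*) [Field K] [NumberField K] (n r : ℕ) (hn : 1 ≤ n) (hr : 1 ≤ r)
    (a : Fin r → Fin (n + 1) → K) (ha : ∀ i, a i ≠ 0) (S : Finset (HeightOneSpectrum (𝓞 K)))
    (κ : ℝ) (hκ0 : 0 ≤ κ) (hκ : κ ≤ 1 / 2) :
    (∀ c δ : ℝ, 0 < δ → ∃ M : ℝ, ∀ B : ℝ, 1 ≤ B →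
      (Exc S a κ c B).Finite ∧ ((Exc S a κ c B).ncard : ℝ) ≤ M * B ^ ((n : ℝ) + 1 - κ + δ)) ∧
    ∃ c₀ : ℝ, ∀ c : ℝ, c₀ ≤ c → ∃ m : ℝ, 0 < m ∧ ∃ B₀ : ℝ, 1 ≤ B₀ ∧ ∀ B : ℝ, B₀ ≤ B →
      m * B ^ ((n : ℝ) + 1 - κ) ≤ ((Exc S a κ c B).ncard : ℝ) :=
  ⟨fun c δ hδ => Pool.Agent.W232.VA.main2 a ha S κ c δ hκ0 hκ hδ,
    Pool.Agent.W232.VA.lower hn hr a ha S κ hκ0 (by linarith)⟩

end Pool.Agent.Results.MP_9ec3f0_nt.HyperplaneArrangements
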