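import Pool.Agent.W659.PV.Trunc

/-!
# The truncated counting function on subvarieties of `A × ℙⁿ`, for all rational points over 100 % of
# the base

`k` is a number field, `A = E_1 × … × E_r` a product of elliptic curves `y² = x³ + a_i x` or
`y² = x³ + b_i` with `a_i, b_i ∈ ℤ` (the rank of `A` over finite extensions of `k` is unbounded),
`X` a closed subvariety `G_1(P; t) = … = G_q(P; t) = 0` of `A × ℙⁿ` over `k`, for instance
`A × ℙⁿ` itself (`q = 0`), and `D` the divisor `F_1(P; t) ⋯ F_m(P; t) = 0` on `X`. The `G_e` and `F_i`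
are polynomials with coefficients in `𝓞 k`, multihomogeneous in the coordinates of the plane cubics
`E_j`, the `F_i` of even degrees and homogeneous of even degree in `t = (t_0, …, t_n)`.

Hypothesis: there is no complex point `P` of `A` such that all the `G_e(P; ·)` vanish identically and
all the `F_i(P; ·)` are squares of polynomials.

Theorem: for every finite extension `K` of `k` and every finite set `S` of primes of `K` there are
`c, η > 0` such that for all but `O(H^((n+1)N - η))` of the `(2H+1)^((n+1)N)` vectors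
`t ∈ (𝓞 K)^(n+1)` with coordinates of size at most `H` (with respect to an integral basis) ALL the
`K`-rational points `x = (P, t)` of `X` outside `D`, of arbitrarily large height, satisfy

  `N_S^(1)(D, x) ≥ c log H`,

`N_S^(1)(D, x)` being the truncated counting function: the sum of the `log N(v)` over all the primes
`v ∉ S` of `K` with `|F_i(P; t)|_v < ∏_j max |P_j|_v^(d_ij) · max |t|_v^(e_i)` for some `i`.
-/

set_option autoImplicit false

namespace Pool.Agent.Results.MP_9ec3f0_nt.TruncatedOnAbelianProducts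

open MvPolynomial NumberField IsDedekindDomain Pool.Agent.W659.SA Pool.Agent.W659.PV

theorem result (k : Type) [Field k] [NumberField k] (r n q m : ℕ) (a b : Fin r → ℤ)
    (hab : ∀ i, a i * b i = 0 ∧ (a i ≠ 0 ∨ b i ≠ 0))
    (G : Fin q → Pol0 (𝓞 k) r (n + 1)) (d' : Fin q → Fin r → ℕ) (hG : ∀ e, MHomog (G e) (d' e))
    (F : Fin m → Pol0 (𝓞 k) r (n + 1)) (d : Fin m → Fin r → ℕ) (e : Fin m → ℕ)
    (hd : ∀ i j, Even (d i j)) (he : ∀ i, Even (e i)) (hF : ∀ i, MHomog (F i) (d i))
    (hFx : ∀ i, XHomog (F i) (e i)) (σ : k →+* ℂ)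
    (hns : ∀ V : Fin r → Fin 3 → ℂ, (∀ i, Pool.Agent.W659.FD.OnE (a i) (b i) (V i)) →
      (∃ e, spc0 (toC σ) (G e) V ≠ 0) ∨
        ∃ i, ∀ g : MvPolynomial (Fin (n + 1)) ℂ, spc0 (toC σ) (F i) V ≠ g ^ 2)
    (K : Type) [Field K] [NumberField K] [Algebra k K] (N : ℕ)
    (ω : Module.Basis (Fin N) ℤ (𝓞 K)) (S : Set (HeightOneSpectrum (𝓞 K))) (hS : S.Finite) :
    ∃ c : ℝ, 0 < c ∧ ∃ η : ℝ, 0 < η ∧ ∃ C : ℝ, ∀ H : ℕ, 1 ≤ H →
      (((FibN k ω a b S G F d e (c * Real.log H) H).ncard : ℕ) : ℝ) ≤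
        C * (H : ℝ) ^ ((((n + 1) * N : ℕ) : ℝ) - η) :=
  truncExt k r n q m a b hab G d' hG F d e hd he hF hFx σ hns K N ω S hS

end Pool.Agent.Results.MP_9ec3f0_nt.TruncatedOnAbelianProducts
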